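import Pool.Agent.W811.LW.Stm

set_option autoImplicit false
open Finset Filter Topology
open scoped ENNReal

namespace Pool.Agent.W502.LW

open Pool.Agent.W811.LW

noncomputable def FF (G : ℕ) (α : ℝ) (j t : ℕ) (β : ℝ) : ℝ≥0∞ := FV G α j t β + FW G α j t β

noncomputable def Ph (G : ℕ) (α : ℝ) (w : ℕ → ℝ) (n : ℕ) (β : ℝ) : ℝ≥0∞ :=
  ∑ j ∈ range (n + 1), ENNReal.ofReal (w (n + j)) * FF G α j (n - j) β

theorem claimA (G : ℕ) (α : ℝ) (w : ℕ → ℝ) (κ C W : ℝ≥0∞)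
    (hv : ∀ (β : ℝ) (j t : ℕ), BA ((G : ℝ) ^ 4) (j + t) β →
      ∑ d ∈ range ((G ^ 4) ^ 2), FF G α j (t + 1) (β + (d : ℝ) / ((G : ℝ) ^ 4) ^ (2 * (j + t) + 2))
        ≤ (((G ^ 4) ^ 2 : ℕ) : ℝ≥0∞) * ((κ + κ) * FF G α j t β + C))
    (hh : ∀ (β : ℝ) (j : ℕ), BA ((G : ℝ) ^ 4) j β →
      ∑ d ∈ range ((G ^ 4) ^ 2), FF G α (j + 1) 0 (β + (d : ℝ) / ((G : ℝ) ^ 4) ^ (2 * j + 2))
        ≤ (((G ^ 4) ^ 2 : ℕ) : ℝ≥0∞) * ((κ + κ) * FF G α j 0 β + C))
    (hw0 : ∀ l, 0 ≤ w l) (hw2 : ∀ l, w (l + 1) ≤ 2 * w l)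
    (hW : ∀ n, ∑ j ∈ range (n + 1), ENNReal.ofReal (w (n + j)) ≤ W)
    (n : ℕ) (β : ℝ) (hβ : BA ((G : ℝ) ^ 4) n β) :
    ∑ d ∈ range ((G ^ 4) ^ 2), Ph G α w (n + 1) (β + (d : ℝ) / ((G : ℝ) ^ 4) ^ (2 * n + 2))
      ≤ (((G ^ 4) ^ 2 : ℕ) : ℝ≥0∞) * (12 * κ * Ph G α w n β + 6 * C * W) := by
  set N : ℝ≥0∞ := (((G ^ 4) ^ 2 : ℕ) : ℝ≥0∞) with hN
  have w2 : ∀ l, ENNReal.ofReal (w (l + 1)) ≤ 2 * ENNReal.ofReal (w l) := by
    intro l
    have h2 : (2 : ℝ≥0∞) = ENNReal.ofReal 2 := by simp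
    rw [h2, ← ENNReal.ofReal_mul (by norm_num)]
    exact ENNReal.ofReal_le_ofReal (hw2 l)
  have hterm : ∀ j ∈ range (n + 1),
      ∑ d ∈ range ((G ^ 4) ^ 2), ENNReal.ofReal (w (n + 1 + j)) *
        FF G α j (n + 1 - j) (β + (d : ℝ) / ((G : ℝ) ^ 4) ^ (2 * n + 2))
      ≤ 2 * (N * (ENNReal.ofReal (w (n + j)) * ((κ + κ) * FF G α j (n - j) β + C))) := by
    intro j hj
    have hj' : j ≤ n := Nat.lt_succ_iff.mp (mem_range.mp hj)
    rw [← Finset.mul_sum]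
    have e1 : n + 1 - j = (n - j) + 1 := by omega
    have e2 : j + (n - j) = n := by omega
    have h1 := hv β j (n - j) (by rw [e2]; exact hβ)
    rw [e2, ← e1] at h1
    have h2 := w2 (n + j)
    have e3 : n + 1 + j = n + j + 1 := by omega
    rw [e3]
    calc ENNReal.ofReal (w (n + j + 1)) * _ ≤ (2 * ENNReal.ofReal (w (n + j))) *
          (N * ((κ + κ) * FF G α j (n - j) β + C)) := mul_le_mul' h2 h1
      _ = _ := by ring
  have hlast : ∑ d ∈ range ((G ^ 4) ^ 2), ENNReal.ofReal (w (n + 1 + (n + 1))) *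
        FF G α (n + 1) (n + 1 - (n + 1)) (β + (d : ℝ) / ((G : ℝ) ^ 4) ^ (2 * n + 2))
      ≤ 4 * (N * (ENNReal.ofReal (w (n + n)) * ((κ + κ) * FF G α n (n - n) β + C))) := by
    rw [← Finset.mul_sum]
    have e1 : n + 1 - (n + 1) = 0 := by omega
    have e2 : n - n = 0 := by omega
    rw [e1, e2]
    have h1 := hh β n hβ
    have h2 := w2 (n + n)
    have h3 := w2 (n + n + 1)
    have e3 : n + 1 + (n + 1) = n + n + 1 + 1 := by omega
    rw [e3]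
    calc ENNReal.ofReal (w (n + n + 1 + 1)) * _ ≤ (2 * (2 * ENNReal.ofReal (w (n + n)))) *
          (N * ((κ + κ) * FF G α n 0 β + C)) :=
          mul_le_mul' (h3.trans (mul_le_mul' le_rfl h2)) h1
      _ = _ := by ring
  have hsum : ∑ d ∈ range ((G ^ 4) ^ 2), Ph G α w (n + 1) (β + (d : ℝ) / ((G : ℝ) ^ 4) ^ (2 * n + 2))
      = (∑ j ∈ range (n + 1), ∑ d ∈ range ((G ^ 4) ^ 2), ENNReal.ofReal (w (n + 1 + j)) *
        FF G α j (n + 1 - j) (β + (d : ℝ) / ((G : ℝ) ^ 4) ^ (2 * n + 2))) +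
        ∑ d ∈ range ((G ^ 4) ^ 2), ENNReal.ofReal (w (n + 1 + (n + 1))) *
        FF G α (n + 1) (n + 1 - (n + 1)) (β + (d : ℝ) / ((G : ℝ) ^ 4) ^ (2 * n + 2)) := by
    unfold Ph
    rw [Finset.sum_comm (s := range (n + 1)), ← Finset.sum_add_distrib]
    refine Finset.sum_congr rfl (fun d _ => ?_)
    rw [Finset.sum_range_succ]
  rw [hsum]
  set Y : ℕ → ℝ≥0∞ := fun j => ENNReal.ofReal (w (n + j)) * ((κ + κ) * FF G α j (n - j) β + C) with hY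
  have hYn : Y n ≤ ∑ j ∈ range (n + 1), Y j :=
    Finset.single_le_sum (f := Y) (fun _ _ => bot_le) (mem_range.mpr (Nat.lt_succ_self n))
  calc _ ≤ (∑ j ∈ range (n + 1), 2 * (N * Y j)) + 4 * (N * Y n) :=
        add_le_add (Finset.sum_le_sum hterm) hlast
    _ ≤ 2 * (N * ∑ j ∈ range (n + 1), Y j) + 4 * (N * ∑ j ∈ range (n + 1), Y j) := by
        rw [← Finset.mul_sum, ← Finset.mul_sum]
        exact add_le_add le_rfl (mul_le_mul' le_rfl (mul_le_mul' le_rfl hYn))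
    _ = N * (6 * ∑ j ∈ range (n + 1), Y j) := by ring
    _ ≤ N * (12 * κ * Ph G α w n β + 6 * C * W) := by
        refine mul_le_mul' le_rfl ?_
        have e : ∑ j ∈ range (n + 1), Y j = (κ + κ) * Ph G α w n β +
            C * ∑ j ∈ range (n + 1), ENNReal.ofReal (w (n + j)) := by
          unfold Ph
          rw [Finset.mul_sum, Finset.mul_sum, ← Finset.sum_add_distrib]
          refine Finset.sum_congr rfl (fun j _ => ?_)
          simp only [hY]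
          ring
        rw [e]
        calc 6 * ((κ + κ) * Ph G α w n β + C * ∑ j ∈ range (n + 1), ENNReal.ofReal (w (n + j)))
            ≤ 6 * ((κ + κ) * Ph G α w n β + C * W) :=
              mul_le_mul' le_rfl (add_le_add le_rfl (mul_le_mul' le_rfl (hW n)))
          _ = _ := by ring

theorem digit (G : ℕ) (Φ : ℝ → ℝ≥0∞) (X : ℝ≥0∞) (n : ℕ) (β : ℝ) (hG : 1000 ≤ G)
    (h5 : BAK) (hβ : BA ((G : ℝ) ^ 4) n β)
    (hs : ∑ d ∈ range ((G ^ 4) ^ 2), Φ (β + (d : ℝ) / ((G : ℝ) ^ 4) ^ (2 * n + 2))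
      ≤ (((G ^ 4) ^ 2 : ℕ) : ℝ≥0∞) * X) :
    ∃ d : ℕ, d < (G ^ 4) ^ 2 ∧ BA ((G : ℝ) ^ 4) (n + 1) (β + (d : ℝ) / ((G : ℝ) ^ 4) ^ (2 * n + 2)) ∧
      Φ (β + (d : ℝ) / ((G : ℝ) ^ 4) ^ (2 * n + 2)) ≤ 2 * X := by
  have hD : 1000 ≤ G ^ 4 := hG.trans (Nat.le_self_pow (by norm_num) G)
  have hcast : ((G ^ 4 : ℕ) : ℝ) = (G : ℝ) ^ 4 := by push_cast; ring
  obtain ⟨s, hs1, hs2⟩ := h5 (G ^ 4) n β (by omega) (by rw [hcast]; exact hβ)
  rw [hcast] at hs2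
  set D := G ^ 4 with hDd
  set good := range (D ^ 2) \ s with hgood
  have hcard : D ^ 2 ≤ 2 * good.card := by
    have h1 : (range (D ^ 2)).card ≤ good.card + s.card := by
      have := Finset.card_le_card_sdiff_add_card (s := range (D ^ 2)) (t := s)
      simpa [hgood] using this
    rw [card_range] at h1
    have h2 : 1000 * D ≤ D ^ 2 := by nlinarith
    omega
  have hne : good.Nonempty := by
    rw [← Finset.card_pos]
    have : 0 < D ^ 2 := by positivity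
    omega
  have hle : ∑ d ∈ good, Φ (β + (d : ℝ) / ((G : ℝ) ^ 4) ^ (2 * n + 2)) ≤ ∑ d ∈ good, 2 * X := by
    calc _ ≤ ∑ d ∈ range (D ^ 2), Φ (β + (d : ℝ) / ((G : ℝ) ^ 4) ^ (2 * n + 2)) :=
          Finset.sum_le_sum_of_subset sdiff_subset
      _ ≤ ((D ^ 2 : ℕ) : ℝ≥0∞) * X := hs
      _ ≤ ((2 * good.card : ℕ) : ℝ≥0∞) * X := by
          refine mul_le_mul' ?_ le_rfl
          exact_mod_cast hcard
      _ = _ := by
          rw [Finset.sum_const, nsmul_eq_mul]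
          push_cast
          ring
  obtain ⟨d, hd1, hd2⟩ := ENNReal.exists_le_of_sum_le hne hle
  rw [hgood, Finset.mem_sdiff, Finset.mem_range] at hd1
  exact ⟨d, hd1.1, hs2 d hd1.1 hd1.2, hd2⟩

theorem limit (D : ℝ) (hD : 1 < D) (b : ℕ → ℝ)
    (hb : ∀ n, ∃ d : ℝ, 0 ≤ d ∧ d ≤ D ^ 2 - 1 ∧ b (n + 1) = b n + d / D ^ (2 * n + 2)) :
    ∃ β : ℝ, ∀ n, |β - b n| ≤ 1 / D ^ (2 * n) := by
  have hD0 : 0 < D := by linarith
  have hmono : Monotone b := monotone_nat_of_le_succ (fun n => by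
    obtain ⟨d, h0, _, h2⟩ := hb n
    rw [h2]
    have : 0 ≤ d / D ^ (2 * n + 2) := by positivity
    linarith)
  have hanti : Antitone (fun n => b n + 1 / D ^ (2 * n)) := antitone_nat_of_succ_le (fun n => by
    obtain ⟨d, h0, h1, h2⟩ := hb n
    rw [h2]
    have e : 1 / D ^ (2 * n) = D ^ 2 / D ^ (2 * n + 2) := by
      rw [pow_add]
      field_simp
    have e2 : 2 * (n + 1) = 2 * n + 2 := by ring
    rw [e, e2]
    have h3 : d / D ^ (2 * n + 2) + 1 / D ^ (2 * n + 2) ≤ D ^ 2 / D ^ (2 * n + 2) := by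
      rw [← add_div]
      exact div_le_div_of_nonneg_right (by linarith) (by positivity)
    linarith)
  have hub : ∀ n m, b m ≤ b n + 1 / D ^ (2 * n) := by
    intro n m
    have hp : ∀ k, 0 ≤ 1 / D ^ (2 * k) := fun k => by positivity
    rcases le_total n m with h | h
    · have := hanti h
      simp only at this
      linarith [hp m]
    · have := hmono h
      linarith [hp n]
  have hbdd : BddAbove (Set.range b) := ⟨b 0 + 1 / D ^ (2 * 0), by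
    rintro _ ⟨m, rfl⟩
    exact hub 0 m⟩
  refine ⟨⨆ n, b n, fun n => ?_⟩
  have h1 : b n ≤ ⨆ n, b n := le_ciSup hbdd n
  have h2 : (⨆ n, b n) ≤ b n + 1 / D ^ (2 * n) := ciSup_le (fun m => hub n m)
  rw [abs_of_nonneg (by linarith)]
  linarith

theorem ind (h1 : SV1) (h2 : SV0) (h3 : SW1) (h4 : SW0) (h5 : BAK) (h6 : INIT) (h7 : WGT) :
    INDC := by
  intro L K G c0 α hL hLK hG hc0 hc1 hα
  obtain ⟨M1, hM1, k1⟩ := h1 G c0 hG hc0 hc1
  obtain ⟨M2, hM2, k2⟩ := h2 G c0 hG hc0 hc1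
  obtain ⟨M3, hM3, k3⟩ := h3 G c0 hG hc0 hc1
  obtain ⟨M4, hM4, k4⟩ := h4 G c0 hG hc0 hc1
  obtain ⟨w, hw0, hw2, hwL, Mw, hMw⟩ := h7 L K hL hLK
  obtain ⟨i1, i2⟩ := h6 G c0 α hG hc0 hα
  set C : ℝ≥0∞ := ENNReal.ofReal M1 + ENNReal.ofReal M3 + (ENNReal.ofReal M2 + ENNReal.ofReal M4)
    with hC
  set W : ℝ≥0∞ := ENNReal.ofReal Mw with hWd
  obtain ⟨κ, hκ⟩ : ∃ κ : ℝ≥0∞, κ = 1 / 48 := ⟨_, rfl⟩
  have hv : ∀ (β : ℝ) (j t : ℕ), BA ((G : ℝ) ^ 4) (j + t) β →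
      ∑ d ∈ range ((G ^ 4) ^ 2), FF G α j (t + 1) (β + (d : ℝ) / ((G : ℝ) ^ 4) ^ (2 * (j + t) + 2))
        ≤ (((G ^ 4) ^ 2 : ℕ) : ℝ≥0∞) * ((κ + κ) * FF G α j t β + C) := by
    intro β j t hβ
    unfold FF
    rw [Finset.sum_add_distrib]
    refine (add_le_add (k1 α β j t hα hβ) (k3 α β j t hα hβ)).trans ?_
    rw [← hκ, ← mul_add]
    refine mul_le_mul' le_rfl ?_
    calc κ * FV G α j t β + κ * FW G α j t β + ENNReal.ofReal M1 +
          (κ * FV G α j t β + κ * FW G α j t β + ENNReal.ofReal M3)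
        = (κ + κ) * (FV G α j t β + FW G α j t β) +
          (ENNReal.ofReal M1 + ENNReal.ofReal M3) := by ring
      _ ≤ _ := by
          refine add_le_add le_rfl ?_
          rw [hC]
          exact le_self_add
  have hh : ∀ (β : ℝ) (j : ℕ), BA ((G : ℝ) ^ 4) j β →
      ∑ d ∈ range ((G ^ 4) ^ 2), FF G α (j + 1) 0 (β + (d : ℝ) / ((G : ℝ) ^ 4) ^ (2 * j + 2))
        ≤ (((G ^ 4) ^ 2 : ℕ) : ℝ≥0∞) * ((κ + κ) * FF G α j 0 β + C) := by
    intro β j hβ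
    unfold FF
    rw [Finset.sum_add_distrib]
    refine (add_le_add (k2 α β j hα hβ) (k4 α β j hα hβ)).trans ?_
    rw [← hκ, ← mul_add]
    refine mul_le_mul' le_rfl ?_
    calc κ * FV G α j 0 β + κ * FW G α j 0 β + ENNReal.ofReal M2 +
          (κ * FV G α j 0 β + κ * FW G α j 0 β + ENNReal.ofReal M4)
        = (κ + κ) * (FV G α j 0 β + FW G α j 0 β) +
          (ENNReal.ofReal M2 + ENNReal.ofReal M4) := by ring
      _ ≤ _ := by
          refine add_le_add le_rfl ?_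
          rw [hC]
          exact le_add_self
  have hW : ∀ n, ∑ j ∈ range (n + 1), ENNReal.ofReal (w (n + j)) ≤ W := by
    intro n
    rw [← ENNReal.ofReal_sum_of_nonneg (fun j _ => hw0 _)]
    exact ENNReal.ofReal_le_ofReal (hMw n)
  have hA := claimA G α w κ C W hv hh hw0 hw2 hW
  set B : ℝ≥0∞ := Ph G α w 0 0 + 24 * (C * W) with hB
  have hCt : C ≠ ⊤ := by
    rw [hC]
    simp [ENNReal.add_eq_top]
  have hWt : W ≠ ⊤ := ENNReal.ofReal_ne_top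
  have hBt : B ≠ ⊤ := by
    rw [hB]
    have e1 : Ph G α w 0 0 ≠ ⊤ := by
      unfold Ph FF
      simp only [zero_add, range_one, sum_singleton, Nat.sub_zero, add_zero]
      exact ENNReal.mul_ne_top ENNReal.ofReal_ne_top (ENNReal.add_ne_top.mpr ⟨i1.ne, i2.ne⟩)
    exact ENNReal.add_ne_top.mpr ⟨e1, ENNReal.mul_ne_top (by norm_num) (ENNReal.mul_ne_top hCt hWt)⟩
  have h24 : 24 * κ = 1 / 2 := by
    rw [hκ]
    rw [← ENNReal.toReal_eq_toReal_iff' (by simp [ENNReal.mul_eq_top]) (by simp)]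
    simp
    norm_num
  have hstep : ∀ (n : ℕ) (β : ℝ), (BA ((G : ℝ) ^ 4) n β ∧ Ph G α w n β ≤ B) →
      ∃ d : ℕ, d < (G ^ 4) ^ 2 ∧ (BA ((G : ℝ) ^ 4) (n + 1)
        (β + (d : ℝ) / ((G : ℝ) ^ 4) ^ (2 * n + 2)) ∧
        Ph G α w (n + 1) (β + (d : ℝ) / ((G : ℝ) ^ 4) ^ (2 * n + 2)) ≤ B) := by
    rintro n β ⟨hβ, hP⟩
    obtain ⟨d, d1, d2, d3⟩ := digit G (Ph G α w (n + 1)) _ n β hG h5 hβ (hA n β hβ)
    refine ⟨d, d1, d2, d3.trans ?_⟩
    calc 2 * (12 * κ * Ph G α w n β + 6 * C * W)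
        = (24 * κ) * Ph G α w n β + 12 * (C * W) := by ring
      _ ≤ (24 * κ) * B + (24 * κ) * (24 * (C * W)) := by
          refine add_le_add (mul_le_mul' le_rfl hP) ?_
          rw [h24]
          have e12 : (12 : ℝ≥0∞) ≤ 1 / 2 * 24 := by
            rw [← ENNReal.toReal_le_toReal (by simp) (by simp [ENNReal.mul_eq_top])]
            simp
            norm_num
          calc 12 * (C * W) ≤ (1 / 2 * 24) * (C * W) := mul_le_mul' e12 le_rfl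
            _ = 1 / 2 * (24 * (C * W)) := by rw [mul_assoc]
      _ ≤ (24 * κ) * B + (24 * κ) * B := by
          refine add_le_add le_rfl (mul_le_mul' le_rfl ?_)
          rw [hB]
          exact le_add_self
      _ = B := by
          rw [h24, ← add_mul, ENNReal.add_halves, one_mul]
  have h00 : BA ((G : ℝ) ^ 4) 0 0 ∧ Ph G α w 0 0 ≤ B := by
    refine ⟨?_, by rw [hB]; exact le_self_add⟩
    intro q p hq
    refine le_max_of_le_left ?_
    have hq1 : (1 : ℝ) ≤ q := by exact_mod_cast hq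
    have hG1 : (1 : ℝ) ≤ (G : ℝ) ^ 4 := by
      have : (1 : ℝ) ≤ G := by exact_mod_cast (by omega : 1 ≤ G)
      exact one_le_pow₀ this
    rw [pow_zero, div_one]
    refine le_trans ?_ hq1
    rw [div_le_one (by positivity)]
    linarith
  choose f hf1 hf2 using hstep
  let sq : (n : ℕ) → {β : ℝ // BA ((G : ℝ) ^ 4) n β ∧ Ph G α w n β ≤ B} := fun n =>
    Nat.rec (motive := fun n => {β : ℝ // BA ((G : ℝ) ^ 4) n β ∧ Ph G α w n β ≤ B}) ⟨0, h00⟩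
      (fun n x => ⟨_, hf2 n x.1 x.2⟩) n
  have hsq : ∀ n, (sq (n + 1)).1 = (sq n).1 + (f n (sq n).1 (sq n).2 : ℝ) /
      ((G : ℝ) ^ 4) ^ (2 * n + 2) := fun n => rfl
  have hG1 : (1 : ℝ) < (G : ℝ) ^ 4 := by
    have : (1 : ℝ) < G := by exact_mod_cast (by omega : 1 < G)
    exact one_lt_pow₀ this (by norm_num)
  obtain ⟨β, hβ⟩ := limit ((G : ℝ) ^ 4) hG1 (fun n => (sq n).1) (fun n => by
    refine ⟨(f n (sq n).1 (sq n).2 : ℝ), by positivity, ?_, hsq n⟩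
    have := hf1 n (sq n).1 (sq n).2
    have h8 : (f n (sq n).1 (sq n).2 : ℝ) + 1 ≤ (((G ^ 4) ^ 2 : ℕ) : ℝ) := by exact_mod_cast this
    push_cast at h8
    linarith)
  refine ⟨fun n => (sq n).1, β, B.toReal, ENNReal.toReal_nonneg, hβ, ?_⟩
  intro j t k hk
  rw [ENNReal.ofReal_toReal hBt]
  refine le_trans ?_ (sq (j + t)).2.2
  have hmem : j ∈ range (j + t + 1) := mem_range.mpr (by omega)
  have h9 : ENNReal.ofReal (w (j + t + j)) * FF G α j (j + t - j) (sq (j + t)).1 ≤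
      Ph G α w (j + t) (sq (j + t)).1 :=
    Finset.single_le_sum (f := fun j' => ENNReal.ofReal (w (j + t + j')) *
      FF G α j' (j + t - j') (sq (j + t)).1) (fun _ _ => bot_le) hmem
  refine le_trans ?_ h9
  have e1 : j + t + j = L k := by omega
  have e2 : j + t - j = t := by omega
  rw [e1, e2]
  have h10 : (1 : ℝ≥0∞) ≤ ENNReal.ofReal (w (L k)) := by
    rw [← ENNReal.ofReal_one]
    exact ENNReal.ofReal_le_ofReal (hwL k)
  calc FV G α j t (sq (j + t)).1 ≤ FF G α j t (sq (j + t)).1 := le_self_add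
    _ = 1 * FF G α j t (sq (j + t)).1 := (one_mul _).symm
    _ ≤ _ := mul_le_mul' h10 le_rfl

end Pool.Agent.W502.LW
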